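import Pool.Agent.TH847.LD.Primes

/-! Assembly -/

set_option autoImplicit false

namespace Pool.Agent.TH847.LD

open Filter Topology Finset Pool.Agent.H332R2.Lit

/-- infinitely many positive integers `q` satisfy `q ⟨qα⟩ ⟨qβ - γ⟩ < ε` -/
def IsInf (α β γ ε : ℝ) : Prop :=
  ∃ᶠ q : ℕ in atTop, (q : ℝ) * |q * α - round (q * α)| * |(q * β - γ) - round (q * β - γ)| < ε

/-- all shifts are good for `m` -/
def GoodAll (α β β' ε : ℝ) (m : ℤ) : Prop := ∀ γ : ℝ, IsInf α (m * β + β') γ ε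

/-- the shift `0` is good for `m` -/
def GoodZero (α β ε : ℝ) (m : ℤ) : Prop := IsInf α (m * β) 0 ε

lemma not_rel {α β : ℝ} (hli : LinearIndependent ℚ ![1, α, β]) :
    ¬ ∃ U V W : ℤ, U ≠ 0 ∧ (U : ℝ) * β = V * α + W := by
  rintro ⟨U, V, W, hU, hrel⟩
  rw [Fintype.linearIndependent_iff] at hli
  have h := hli ![(W : ℚ), (V : ℚ), -(U : ℚ)] (by
    simp only [Fin.sum_univ_three, Matrix.cons_val_zero, Matrix.cons_val_one,
      Matrix.cons_val]
    simp only [Rat.smul_def]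
    push_cast
    linarith) 2
  simp at h
  exact hU h

lemma abs_sub_round_neg (x : ℝ) : |-x - round (-x)| = |x - round x| := by
  rw [← UnitAddCircle.norm_eq, ← UnitAddCircle.norm_eq, AddCircle.coe_neg, norm_neg]

lemma zero_of_relation {α β : ℝ} (hα : Irrational α) (U V W : ℤ) (hU : U ≠ 0)
    (hrel : (U : ℝ) * β = V * α + W) (m : ℤ) {ε : ℝ} (hε : 0 < ε) : IsInf α (m * β) 0 ε := by
  unfold IsInf
  rcases Int.natAbs_eq m with h | h
  · have h1 := freq_of_relation hα U V W hU hrel m.natAbs hε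
    refine h1.mono fun q hq => ?_
    rw [sub_zero]
    have h2 : ((m : ℤ) : ℝ) = ((m.natAbs : ℕ) : ℝ) := by
      rw [h]; simp
    rw [h2]
    exact hq
  · have h1 := freq_of_relation (β := -β) hα U (-V) (-W) hU (by push_cast; linarith) m.natAbs hε
    refine h1.mono fun q hq => ?_
    rw [sub_zero]
    have h2 : ((m : ℤ) : ℝ) = -((m.natAbs : ℕ) : ℝ) := by
      conv_lhs => rw [h]
      simp
    rw [h2]
    have h3 : (q : ℝ) * (-(m.natAbs : ℝ) * β) = (q : ℝ) * ((m.natAbs : ℝ) * -β) := by ring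
    rw [h3]
    exact hq

open Classical in
theorem all_shifts (μ : ℕ → ℤ →₀ ℝ) (h0 : ∀ N m, 0 ≤ μ N m)
    (h1 : ∀ N, ∑ m ∈ (μ N).support, μ N m ≤ 1)
    (hμ : ∀ t : ℝ, Irrational t → Tendsto (fun N => FT (μ N) t) atTop (𝓝 0))
    {α β β' ε : ℝ} (hε : 0 < ε) (hno : ¬ ∃ U V W : ℤ, U ≠ 0 ∧ (U : ℝ) * β = V * α + W) :
    Tendsto (fun N => ∑ m ∈ (μ N).support with ¬ GoodAll α β β' ε m, μ N m)
      atTop (𝓝 0) := by
  by_cases hbad : ∃ c : ℝ, 0 < c ∧ ∀ᶠ q : ℕ in atTop, c ≤ (q : ℝ) * |q * α - round (q * α)|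
  · obtain ⟨c, hc, hbad⟩ := hbad
    exact main_gen μ h0 h1 hμ hc hbad hno hε _ fun m hm => hm
  · have h2 : ∀ N, ∑ m ∈ (μ N).support with ¬ GoodAll α β β' ε m, μ N m = 0 := by
      intro N
      rw [Finset.filter_eq_empty_iff.2, Finset.sum_empty]
      intro m _ hcon
      exact hcon fun γ => freq_of_not_bad hbad (fun q => q * (m * β + β') - γ) hε
    simp only [h2]
    exact tendsto_const_nhds

open Classical in
theorem zero_shift (μ : ℕ → ℤ →₀ ℝ) (h0 : ∀ N m, 0 ≤ μ N m)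
    (h1 : ∀ N, ∑ m ∈ (μ N).support, μ N m ≤ 1)
    (hμ : ∀ t : ℝ, Irrational t → Tendsto (fun N => FT (μ N) t) atTop (𝓝 0))
    {α β ε : ℝ} (hε : 0 < ε) :
    Tendsto (fun N => ∑ m ∈ (μ N).support with ¬ GoodZero α β ε m, μ N m)
      atTop (𝓝 0) := by
  by_cases hbad : ∃ c : ℝ, 0 < c ∧ ∀ᶠ q : ℕ in atTop, c ≤ (q : ℝ) * |q * α - round (q * α)|
  · obtain ⟨c, hc, hbad'⟩ := hbad
    by_cases hrel : ∃ U V W : ℤ, U ≠ 0 ∧ (U : ℝ) * β = V * α + W
    · obtain ⟨U, V, W, hU, hrel⟩ := hrel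
      have hα := irrational_of_bad hc hbad'
      have h2 : ∀ N, ∑ m ∈ (μ N).support with ¬ GoodZero α β ε m, μ N m = 0 := by
        intro N
        rw [Finset.filter_eq_empty_iff.2, Finset.sum_empty]
        intro m _ hcon
        exact hcon (zero_of_relation hα U V W hU hrel m hε)
      simp only [h2]
      exact tendsto_const_nhds
    · have h2 := all_shifts μ h0 h1 hμ (α := α) (β := β) (β' := 0) hε hrel
      refine squeeze_zero (fun N => Finset.sum_nonneg fun m _ => h0 N m) (fun N => ?_) h2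
      refine Finset.sum_le_sum_of_subset_of_nonneg ?_ fun m _ _ => h0 N m
      intro m hm
      rw [Finset.mem_filter] at hm ⊢
      refine ⟨hm.1, fun hcon => hm.2 ?_⟩
      have := hcon 0
      rw [add_zero] at this
      exact this
  · have h2 : ∀ N, ∑ m ∈ (μ N).support with ¬ GoodZero α β ε m, μ N m = 0 := by
      intro N
      rw [Finset.filter_eq_empty_iff.2, Finset.sum_empty]
      intro m _ hcon
      exact hcon (freq_of_not_bad hbad (fun q => q * (m * β) - 0) hε)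
    simp only [h2]
    exact tendsto_const_nhds

lemma prime_ratio (B : ℤ → Prop) [DecidablePred B] (N : ℕ) :
    ∑ m ∈ (μP N).support with B m, μP N m
      = (((Icc 1 N).filter fun p : ℕ => p.Prime ∧ B p).card : ℝ) / ((Icc 1 N).filter Nat.Prime).card := by
  rw [Finset.sum_filter]
  rw [sum_μP N (M := ℝ) (fun m c => if B m then c else 0) (fun m => by split_ifs <;> rfl)]
  rw [← Finset.sum_filter, Finset.sum_const, nsmul_eq_mul, mul_one_div, Finset.filter_filter]

end Pool.Agent.TH847.LD
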