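import Mathlib

/-! Solutions of `z (i + 2) = b i • z (i + 1) + z i`, `b i ≥ 1`, with finitely many values. -/

set_option autoImplicit false

namespace Pool.Agent.TH847.LD

/-- continuants -/
def cont (b : ℕ → ℤ) (u v : ℤ) : ℕ → ℤ
  | 0 => u
  | 1 => v
  | n + 2 => b n * cont b u v (n + 1) + cont b u v n

lemma cont_nonneg {b : ℕ → ℤ} (hb : ∀ i, 1 ≤ b i) {u v : ℤ} (hu : 0 ≤ u) (hv : 0 ≤ v) :
    ∀ n, 0 ≤ cont b u v n ∧ 0 ≤ cont b u v (n + 1) := by
  intro n
  induction n with
  | zero => exact ⟨hu, hv⟩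
  | succ n ih =>
    refine ⟨ih.2, ?_⟩
    show 0 ≤ b n * cont b u v (n + 1) + cont b u v n
    have h1 := hb n
    have h2 := mul_nonneg (by omega : 0 ≤ b n) ih.2
    have h3 := ih.1
    omega

lemma cont_mono {b : ℕ → ℤ} (hb : ∀ i, 1 ≤ b i) {u v : ℤ} (hu : 0 ≤ u) (hv : 0 ≤ v) (n : ℕ) :
    cont b u v (n + 1) + cont b u v n ≤ cont b u v (n + 2) := by
  show cont b u v (n + 1) + cont b u v n ≤ b n * cont b u v (n + 1) + cont b u v n
  have h1 := hb n
  have h2 := (cont_nonneg hb hu hv n).2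
  nlinarith

lemma x_ge {b : ℕ → ℤ} (hb : ∀ i, 1 ≤ b i) : ∀ n, 1 ≤ cont b 1 0 (n + 2) := by
  intro n
  have key : ∀ n, 1 ≤ cont b 1 0 (n + 1) + cont b 1 0 n := by
    intro n
    induction n with
    | zero => simp [cont]
    | succ n ih =>
      have h1 := cont_mono hb (u := 1) (v := 0) (by norm_num) (by norm_num) n
      have h2 := (cont_nonneg hb (u := 1) (v := 0) (by norm_num) (by norm_num) n).2
      have e : n + 1 + 1 = n + 2 := rfl
      rw [e]
      omega
  have h1 := cont_mono hb (u := 1) (v := 0) (by norm_num) (by norm_num) n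
  have h2 := key n
  omega

lemma y_ge {b : ℕ → ℤ} (hb : ∀ i, 1 ≤ b i) : ∀ n, 2 ≤ cont b 0 1 (n + 3) := by
  have h1 : ∀ n, 1 ≤ cont b 0 1 (n + 1) := by
    intro n
    induction n with
    | zero => simp [cont]
    | succ n ih =>
      have h1 := cont_mono hb (u := 0) (v := 1) (by norm_num) (by norm_num) n
      have h2 := (cont_nonneg hb (u := 0) (v := 1) (by norm_num) (by norm_num) n).1
      have e : n + 1 + 1 = n + 2 := rfl
      rw [e]
      omega
  intro n
  have h2 := cont_mono hb (u := 0) (v := 1) (by norm_num) (by norm_num) (n + 1)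
  have h3 := h1 n
  have h4 := h1 (n + 1)
  have e1 : n + 1 + 2 = n + 3 := rfl
  rw [e1] at h2
  omega

lemma cont_det (b : ℕ → ℤ) (n : ℕ) :
    cont b 1 0 n * cont b 0 1 (n + 1) - cont b 1 0 (n + 1) * cont b 0 1 n = (-1) ^ n := by
  induction n with
  | zero => simp [cont]
  | succ n ih =>
    have e1 : cont b 1 0 (n + 1 + 1) = b n * cont b 1 0 (n + 1) + cont b 1 0 n := rfl
    have e2 : cont b 0 1 (n + 1 + 1) = b n * cont b 0 1 (n + 1) + cont b 0 1 n := rfl
    rw [e1, e2, pow_succ, ← ih]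
    ring

variable {G : Type*} [AddCommGroup G]

lemma cont_sol {b : ℕ → ℤ} {z : ℕ → G} (hz : ∀ i, z (i + 2) = b i • z (i + 1) + z i) (s : ℕ) :
    ∀ n, z (s + n) = cont (fun i => b (s + i)) 1 0 n • z s
      + cont (fun i => b (s + i)) 0 1 n • z (s + 1) ∧
      z (s + n + 1) = cont (fun i => b (s + i)) 1 0 (n + 1) • z s
      + cont (fun i => b (s + i)) 0 1 (n + 1) • z (s + 1) := by
  intro n
  induction n with
  | zero => simp [cont]
  | succ n ih =>
    refine ⟨ih.2, ?_⟩
    have e1 : cont (fun i => b (s + i)) 1 0 (n + 1 + 1)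
        = b (s + n) * cont (fun i => b (s + i)) 1 0 (n + 1) + cont (fun i => b (s + i)) 1 0 n := rfl
    have e2 : cont (fun i => b (s + i)) 0 1 (n + 1 + 1)
        = b (s + n) * cont (fun i => b (s + i)) 0 1 (n + 1) + cont (fun i => b (s + i)) 0 1 n := rfl
    have e3 : s + (n + 1) + 1 = s + n + 2 := by omega
    rw [e3, hz (s + n), ih.1, ih.2, e1, e2]
    module

/-- a solution with finitely many values in a torsion free group vanishes -/
theorem zero_of_finite (htf : ∀ (n : ℤ) (g : G), n ≠ 0 → n • g = 0 → g = 0)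
    {b : ℕ → ℤ} (hb : ∀ i, 1 ≤ b i) {z : ℕ → G} (hz : ∀ i, z (i + 2) = b i • z (i + 1) + z i)
    (hfin : (Set.range z).Finite) : ∀ i, z i = 0 := by
  classical
  have : Finite (Set.range z) := hfin
  let φ : ℕ → Set.range z × Set.range z := fun i =>
    (⟨z (2 * i), ⟨_, rfl⟩⟩, ⟨z (2 * i + 1), ⟨_, rfl⟩⟩)
  obtain ⟨i, j, hij, hφ⟩ := Finite.exists_ne_map_eq_of_infinite φ
  wlog hlt : i < j generalizing i j with H
  · exact H j i (Ne.symm hij) hφ.symm (by omega)
  have h1 : z (2 * i) = z (2 * j) := congrArg (fun t => (t.1 : G)) hφ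
  have h2 : z (2 * i + 1) = z (2 * j + 1) := congrArg (fun t => (t.2 : G)) hφ
  obtain ⟨m, hm⟩ : ∃ m, j = i + (m + 1) := ⟨j - i - 1, by omega⟩
  set s := 2 * i with hs
  have hj : 2 * j = s + (2 * m + 2) := by omega
  obtain ⟨c1, c2⟩ := cont_sol hz s (2 * m + 2)
  rw [← hj] at c1
  have hj' : s + (2 * m + 2) + 1 = 2 * j + 1 := by omega
  rw [hj'] at c2
  rw [← h1] at c1
  rw [← h2] at c2
  set b' : ℕ → ℤ := fun i => b (s + i) with hb'
  have hb1 : ∀ i, 1 ≤ b' i := fun i => hb _
  set x := cont b' 1 0 (2 * m + 2) with hx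
  set y := cont b' 0 1 (2 * m + 2) with hy
  set x' := cont b' 1 0 (2 * m + 2 + 1) with hx'
  set y' := cont b' 0 1 (2 * m + 2 + 1) with hy'
  have hdet : x * y' - x' * y = 1 := by
    rw [hx, hy', hx', hy, cont_det b' (2 * m + 2)]
    have : 2 * m + 2 = 2 * (m + 1) := by ring
    rw [this, pow_mul]; norm_num
  have hx1 : 1 ≤ x := x_ge hb1 (2 * m)
  have hy1 : 2 ≤ y' := y_ge hb1 (2 * m)
  have hne : (x - 1) * (y' - 1) - x' * y ≠ 0 := by
    have : (x - 1) * (y' - 1) - x' * y = 2 - x - y' := by linarith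
    rw [this]; omega
  have d1 : (x - 1) • z s + y • z (s + 1) = 0 := by
    rw [sub_smul, one_smul]
    have : x • z s + y • z (s + 1) = z s := c1.symm
    calc x • z s - z s + y • z (s + 1) = (x • z s + y • z (s + 1)) - z s := by abel
      _ = 0 := by rw [this, sub_self]
  have d2 : x' • z s + (y' - 1) • z (s + 1) = 0 := by
    rw [sub_smul, one_smul]
    have : x' • z s + y' • z (s + 1) = z (s + 1) := c2.symm
    calc x' • z s + (y' • z (s + 1) - z (s + 1)) = (x' • z s + y' • z (s + 1)) - z (s + 1) := by abel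
      _ = 0 := by rw [this, sub_self]
  have z1 : z s = 0 := by
    apply htf _ _ hne
    have : ((x - 1) * (y' - 1) - x' * y) • z s
        = (y' - 1) • ((x - 1) • z s + y • z (s + 1)) - y • (x' • z s + (y' - 1) • z (s + 1)) := by
      module
    rw [this, d1, d2, smul_zero, smul_zero, sub_zero]
  have z2 : z (s + 1) = 0 := by
    apply htf _ _ hne
    have : ((x - 1) * (y' - 1) - x' * y) • z (s + 1)
        = (x - 1) • (x' • z s + (y' - 1) • z (s + 1)) - x' • ((x - 1) • z s + y • z (s + 1)) := by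
      module
    rw [this, d1, d2, smul_zero, smul_zero, sub_zero]
  -- forward
  have hfw : ∀ n, z (s + n) = 0 := by
    intro n
    rw [(cont_sol hz s n).1, z1, z2, smul_zero, smul_zero, add_zero]
  -- backward
  have hbw : ∀ n, n ≤ s → z (s - n) = 0 ∧ z (s - n + 1) = 0 := by
    intro n
    induction n with
    | zero => intro _; exact ⟨z1, z2⟩
    | succ n ih =>
      intro hn
      obtain ⟨i1, i2⟩ := ih (by omega)
      have e1 : s - (n + 1) + 1 = s - n := by omega
      refine ⟨?_, by rw [e1]; exact i1⟩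
      have h3 := hz (s - (n + 1))
      have e2 : s - (n + 1) + 2 = s - n + 1 := by omega
      rw [e1, e2, i1, i2, smul_zero, zero_add] at h3
      exact h3.symm
  intro n
  rcases le_or_gt s n with h | h
  · obtain ⟨k, rfl⟩ := Nat.exists_eq_add_of_le h
    exact hfw k
  · have := (hbw (s - n) (by omega)).1
    have e : s - (s - n) = n := by omega
    rwa [e] at this

end Pool.Agent.TH847.LD
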