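import Pool.Agent.H332R2.Lit.Lim
import Pool.Agent.TH847.LD.Fin

/-! The limit points of `q_k β` meet infinitely many cosets of the torsion group. -/

set_option autoImplicit false

namespace Pool.Agent.TH847.LD

open Filter Topology Pool.Agent.H332R2.Lit

lemma ulim {X : Type*} [TopologicalSpace X] [CompactSpace X] (U : Ultrafilter ℕ) (f : ℕ → X) :
    ∃ x, Tendsto f U (𝓝 x) := ⟨(U.map f).lim, (U.map f).le_nhds_lim⟩

lemma ulimR (U : Ultrafilter ℕ) (f : ℕ → ℝ) (M : ℝ) (h : ∀ᶠ n in (U : Filter ℕ), |f n| ≤ M) :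
    ∃ x, |x| ≤ M ∧ Tendsto f U (𝓝 x) := by
  have h1 : Set.Icc (-M) M ∈ U.map f := by
    rw [Ultrafilter.mem_map]
    filter_upwards [h] with n hn
    exact abs_le.1 hn
  obtain ⟨x, hx, hx2⟩ := isCompact_iff_ultrafilter_le_nhds.1 (isCompact_Icc (a := -M) (b := M))
    (U.map f) (by rwa [le_principal_iff])
  exact ⟨x, abs_le.2 hx, hx2⟩

lemma ulimZ (U : Ultrafilter ℕ) (f : ℕ → ℤ) (A : ℤ)
    (h : ∀ᶠ n in (U : Filter ℕ), 1 ≤ f n ∧ f n ≤ A) :
    ∃ b : ℤ, 1 ≤ b ∧ ∀ᶠ n in (U : Filter ℕ), f n = b := by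
  have h1 : Set.Icc 1 A ∈ U.map f := by
    rw [Ultrafilter.mem_map]
    exact h
  obtain ⟨x, hx, hx2⟩ := isCompact_iff_ultrafilter_le_nhds.1 ((Set.finite_Icc 1 A).isCompact)
    (U.map f) (by rwa [le_principal_iff])
  refine ⟨x, hx.1, ?_⟩
  have h3 : ({x} : Set ℤ) ∈ U.map f := hx2 (by simp [nhds_discrete])
  exact h3

lemma cluster_of_tendsto {θ : ℕ → UnitAddCircle} {U : Ultrafilter ℕ} {g : ℕ → ℕ}
    (hg : Tendsto g U atTop) {x : UnitAddCircle} (h : Tendsto (fun n => θ (g n)) U (𝓝 x)) :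
    MapClusterPt x atTop θ :=
  mapClusterPt_iff_ultrafilter.2 ⟨U.map g, hg, h⟩

lemma coe_zsmul' (n : ℤ) (r : ℝ) : (((n : ℝ) * r : ℝ) : UnitAddCircle) = n • (r : UnitAddCircle) := by
  rw [← AddCircle.coe_zsmul, zsmul_eq_mul]

/-- exactness of the recurrence for small lifts -/
lemma exact_rec {a A : ℤ} (ha0 : 0 ≤ a) (haA : a ≤ A) {x y z : ℝ}
    (h : (x : UnitAddCircle) = a • (y : UnitAddCircle) + (z : UnitAddCircle))
    (hs : |x| + A * |y| + |z| < 1) : x = a * y + z := by
  have h1 : ((x - (a * y + z) : ℝ) : UnitAddCircle) = 0 := by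
    rw [AddCircle.coe_sub, AddCircle.coe_add, coe_zsmul', h, sub_self]
  have h2 : |x - (a * y + z)| < 1 := by
    have ha0' : (0 : ℝ) ≤ a := by exact_mod_cast ha0
    have haA' : (a : ℝ) ≤ A := by exact_mod_cast haA
    calc |x - (a * y + z)| ≤ |x| + |a * y + z| := abs_sub _ _
      _ ≤ |x| + (|a * y| + |z|) := by gcongr; exact abs_add_le _ _
      _ = |x| + (a * |y| + |z|) := by rw [abs_mul, abs_of_nonneg ha0']
      _ ≤ |x| + (A * |y| + |z|) := by gcongr
      _ < 1 := by linarith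
  have h3 := zero_of_coe_zero h1 h2
  linarith

lemma discrete_zero {e : ℕ → ℝ} {D : ℤ} (hD : D ≠ 0) (hint : ∀ i, ∃ n : ℤ, (D : ℝ) * e i = n)
    (hb1 : ∀ i, |e i| ≤ 1) {b : ℕ → ℤ} (hb : ∀ i, 1 ≤ b i)
    (he : ∀ i, e (i + 2) = b i * e (i + 1) + e i) : e 0 = 0 := by
  have hDr : (D : ℝ) ≠ 0 := by exact_mod_cast hD
  have hfin : (Set.range e).Finite := by
    apply ((Set.finite_Icc (-|D|) |D|).image (fun n : ℤ => (n : ℝ) / D)).subset
    rintro _ ⟨i, rfl⟩
    obtain ⟨n, hn⟩ := hint i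
    refine ⟨n, ?_, ?_⟩
    · have h1 : |(n : ℝ)| ≤ |(D : ℝ)| := by
        rw [← hn, abs_mul]
        have := hb1 i
        have h2 := abs_nonneg (D : ℝ)
        nlinarith
      have h2 : |n| ≤ |D| := by exact_mod_cast h1
      rw [Set.mem_Icc]
      exact abs_le.1 h2
    · show (n : ℝ) / D = e i
      rw [← hn]; field_simp
  refine zero_of_finite (G := ℝ) ?_ hb (z := e) ?_ hfin 0
  · intro n g hn hg
    rw [zsmul_eq_mul] at hg
    rcases mul_eq_zero.1 hg with h | h
    · exact absurd (by exact_mod_cast h) hn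
    · exact h
  · intro i
    rw [zsmul_eq_mul]
    exact he i

lemma int_of_torsion {D : ℤ} {e : ℝ} {v : UnitAddCircle} (he : (e : UnitAddCircle) = v)
    (hv : D • v = 0) : ∃ n : ℤ, (D : ℝ) * e = n := by
  apply int_of_coe_zero
  rw [coe_zsmul', he, hv]

section

variable {θ : ℕ → UnitAddCircle} {a : ℕ → ℤ} {A : ℕ}

/-- limits along an ultrafilter, forwards -/
lemma fwd (hrec : ∀ k, θ (k + 2) = a k • θ (k + 1) + θ k) (ha1 : ∀ k, 1 ≤ a k)
    (haA : ∀ᶠ k in atTop, a k ≤ A) (U : Ultrafilter ℕ) (hU : (U : Filter ℕ) ≤ atTop) :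
    ∃ (v : ℕ → UnitAddCircle) (b : ℕ → ℤ), (∀ i, Tendsto (fun k => θ (k + i)) U (𝓝 (v i))) ∧
      (∀ i, 1 ≤ b i) ∧ (∀ i, b i ≤ A) ∧ (∀ i, ∀ᶠ k in (U : Filter ℕ), a (k + i) = b i) ∧
      (∀ i, v (i + 2) = b i • v (i + 1) + v i) ∧ ∀ i, MapClusterPt (v i) atTop θ := by
  have h1 : ∀ i, ∃ x, Tendsto (fun k => θ (k + i)) U (𝓝 x) := fun i => ulim U _
  choose v hv using h1
  have hsh : ∀ i : ℕ, Tendsto (fun k => k + i) (U : Filter ℕ) atTop := fun i =>
    (tendsto_add_atTop_nat i).mono_left hU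
  have h2 : ∀ i, ∀ᶠ k in (U : Filter ℕ), 1 ≤ a (k + i) ∧ a (k + i) ≤ A := by
    intro i
    filter_upwards [(hsh i).eventually haA] with k hk
    exact ⟨ha1 _, hk⟩
  have h3 : ∀ i, ∃ b : ℤ, 1 ≤ b ∧ ∀ᶠ k in (U : Filter ℕ), a (k + i) = b := fun i =>
    ulimZ U _ A (h2 i)
  choose b hb1 hb2 using h3
  refine ⟨v, b, hv, hb1, ?_, hb2, ?_, ?_⟩
  · intro i
    obtain ⟨k, hk1, hk2⟩ := ((hb2 i).and (h2 i)).exists
    rw [← hk1]; exact hk2.2
  · intro i
    refine tendsto_nhds_unique (hv (i + 2)) ?_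
    have h4 : Tendsto (fun k => b i • θ (k + (i + 1)) + θ (k + i)) U (𝓝 (b i • v (i + 1) + v i)) :=
      ((hv (i + 1)).const_smul (b i)).add (hv i)
    refine h4.congr' ?_
    filter_upwards [hb2 i] with k hk
    rw [← hk]
    exact (hrec (k + i)).symm
  · intro i
    exact cluster_of_tendsto (hsh i) (hv i)

theorem small_case (hrec : ∀ k, θ (k + 2) = a k • θ (k + 1) + θ k) (ha1 : ∀ k, 1 ≤ a k)
    (haA : ∀ᶠ k in atTop, a k ≤ A)
    (htor : ∀ x, MapClusterPt x atTop θ → ∃ D : ℤ, D ≠ 0 ∧ D • x = 0)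
    (h00 : ∀ η : ℝ, 0 < η → ∃ᶠ k in atTop, ‖θ k‖ < η ∧ ‖θ (k + 1)‖ < η) :
    ∀ x, MapClusterPt x atTop θ → x = 0 := by
  choose r hr1 hr2 using fun k => lift_small (θ k)
  obtain ⟨K0, hK0⟩ := eventually_atTop.1 haA
  set δ : ℝ := 1 / (4 * (A + 2) ^ 2) with hδ
  have hA0 : (0 : ℝ) ≤ A := Nat.cast_nonneg A
  have hδ0 : 0 < δ := by positivity
  have hδ1 : (A + 2) * ((A + 2) * δ) = 1 / 4 := by rw [hδ]; field_simp
  have hδA : (A + 1) * δ < 1 / 4 := by nlinarith
  have hδle : δ ≤ (A + 1) * δ := by nlinarith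
  -- common order
  have hcommon : ∀ x y, MapClusterPt x atTop θ → MapClusterPt y atTop θ →
      ∃ D : ℤ, D ≠ 0 ∧ D • x = 0 ∧ D • y = 0 := by
    intro x y hx hy
    obtain ⟨D1, h1, h2⟩ := htor x hx
    obtain ⟨D2, h3, h4⟩ := htor y hy
    refine ⟨D1 * D2, mul_ne_zero h1 h3, ?_, ?_⟩
    · rw [mul_comm, mul_smul, h2, smul_zero]
    · rw [mul_smul, h4, smul_zero]
  by_cases hcase : ∃ k0 ≥ K0, ∀ m ≥ k0, ‖θ m‖ < δ
  · -- the sequence stays near zero
    obtain ⟨k0, hk0, hsm⟩ := hcase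
    intro x hx
    obtain ⟨U, hU, hUx⟩ := mapClusterPt_iff_ultrafilter.1 hx
    obtain ⟨v, b, hv, hb1, hbA, hb2, hvr, hvc⟩ := fwd hrec ha1 haA U hU
    have hx0 : x = v 0 := tendsto_nhds_unique hUx (hv 0)
    have hev : ∀ᶠ k in (U : Filter ℕ), k0 ≤ k := hU (eventually_ge_atTop k0)
    have h5 : ∀ i, ∃ e, |e| ≤ δ ∧ Tendsto (fun k => r (k + i)) U (𝓝 e) := by
      intro i
      refine ulimR U _ δ ?_
      filter_upwards [hev] with k hk
      rw [hr2]
      exact (hsm _ (by omega)).le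
    choose e he1 he2 using h5
    have hcoe : ∀ i, ((e i : ℝ) : UnitAddCircle) = v i := by
      intro i
      refine tendsto_nhds_unique ?_ (hv i)
      have h6 : Tendsto (fun k => ((r (k + i) : ℝ) : UnitAddCircle)) U (𝓝 ((e i : ℝ) : UnitAddCircle)) :=
        ((AddCircle.continuous_mk' 1).tendsto (e i)).comp (he2 i)
      simpa only [hr1] using h6
    have hrece : ∀ i, e (i + 2) = b i * e (i + 1) + e i := by
      intro i
      refine tendsto_nhds_unique (he2 (i + 2)) ?_
      have h4 : Tendsto (fun k => (b i : ℝ) * r (k + (i + 1)) + r (k + i)) U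
          (𝓝 (b i * e (i + 1) + e i)) := ((he2 (i + 1)).const_mul _).add (he2 i)
      refine h4.congr' ?_
      filter_upwards [hb2 i, hev] with k hk hk2
      symm
      have hbi := hb1 i
      refine exact_rec (A := A) (by omega) (hbA i) ?_ ?_
      · rw [hr1, hr1, hr1, ← hk]
        exact hrec (k + i)
      · have g1 : |r (k + (i + 2))| < δ := by rw [hr2]; exact hsm _ (by omega)
        have g2 : |r (k + (i + 1))| < δ := by rw [hr2]; exact hsm _ (by omega)
        have g3 : |r (k + i)| < δ := by rw [hr2]; exact hsm _ (by omega)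
        have g4 : (A : ℝ) * |r (k + (i + 1))| ≤ A * δ := mul_le_mul_of_nonneg_left g2.le hA0
        push_cast
        nlinarith
    obtain ⟨D, hD, hD0, hD1⟩ := hcommon (v 0) (v 1) (hvc 0) (hvc 1)
    have hDv : ∀ i, D • v i = 0 ∧ D • v (i + 1) = 0 := by
      intro i
      induction i with
      | zero => exact ⟨hD0, hD1⟩
      | succ i ih =>
        refine ⟨ih.2, ?_⟩
        rw [hvr i, smul_add, smul_comm, ih.1, ih.2, smul_zero, add_zero]
    have h7 := discrete_zero hD (fun i => int_of_torsion (hcoe i) (hDv i).1)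
      (fun i => (he1 i).trans (by nlinarith)) hb1 hrece
    rw [hx0, ← hcoe 0, h7]
    rfl
  · exfalso
    push Not at hcase
    -- growth bound
    have hgrow : ∀ k ≥ K0, ‖θ (k + 2)‖ ≤ A * ‖θ (k + 1)‖ + ‖θ k‖ := by
      intro k hk
      rw [hrec k]
      refine (norm_add_le _ _).trans ?_
      gcongr
      refine (norm_zsmul_le _ _).trans ?_
      have h1 : ‖a k‖ ≤ A := by
        have h0 := ha1 k
        rw [Int.norm_eq_abs]
        have h2 : |a k| ≤ (A : ℤ) := by
          rw [abs_of_nonneg (by omega)]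
          exact hK0 k hk
        exact_mod_cast h2
      gcongr
    -- the exits
    have hex : ∀ n : ℕ, ∃ k m : ℕ, K0 ≤ k ∧ n ≤ k ∧ k + n + 2 ≤ m ∧ δ ≤ ‖θ m‖ ∧
        ∀ j, k ≤ j → j < m → ‖θ j‖ < δ := by
      intro n
      have hη : 0 < δ / (A + 2) ^ (n + 2) := by positivity
      obtain ⟨k, ⟨hk1, hk2⟩, hk3⟩ :=
        ((h00 _ hη).and_eventually (eventually_ge_atTop (max K0 n))).exists
      have hkK : K0 ≤ k := (le_max_left _ _).trans hk3
      obtain ⟨m0, hm0, hm1⟩ := hcase k hkK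
      classical
      have hP : ∃ m, k ≤ m ∧ δ ≤ ‖θ m‖ := ⟨m0, hm0, hm1⟩
      set m := Nat.find hP with hm
      have hmP := Nat.find_spec hP
      rw [← hm] at hmP
      have hmin : ∀ j, k ≤ j → j < m → ‖θ j‖ < δ := by
        intro j hj hjm
        have := Nat.find_min hP hjm
        by_contra hc
        exact this ⟨hj, not_lt.1 hc⟩
      set η : ℝ := δ / (A + 2) ^ (n + 2) with hηd
      have hg : ∀ j, ‖θ (k + j)‖ ≤ η * (A + 1) ^ j ∧ ‖θ (k + j + 1)‖ ≤ η * (A + 1) ^ (j + 1) := by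
        intro j
        induction j with
        | zero =>
          refine ⟨by simpa using hk1.le, ?_⟩
          have h1 : η * 1 ≤ η * (A + 1) ^ (0 + 1) := by
            apply mul_le_mul_of_nonneg_left _ hη.le
            rw [zero_add, pow_one]; linarith
          have h2 := hk2.le
          simp only [add_zero] at *
          linarith
        | succ j ih =>
          refine ⟨ih.2, ?_⟩
          have h1 := hgrow (k + j) (by omega)
          have e1 : k + (j + 1) + 1 = k + j + 2 := by omega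
          rw [e1]
          have h2 : (A : ℝ) * ‖θ (k + j + 1)‖ ≤ A * (η * (A + 1) ^ (j + 1)) :=
            mul_le_mul_of_nonneg_left ih.2 hA0
          have h3 : (A : ℝ) * (η * (A + 1) ^ (j + 1)) + η * (A + 1) ^ j ≤ η * (A + 1) ^ (j + 1 + 1) := by
            have h4 : 0 ≤ η * (A + 1 : ℝ) ^ j := by positivity
            have h5 : η * (A + 1 : ℝ) ^ (j + 1 + 1) - (A * (η * (A + 1) ^ (j + 1)) + η * (A + 1) ^ j)
                = A * (η * (A + 1 : ℝ) ^ j) := by ring
            nlinarith [mul_nonneg hA0 h4]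
          linarith [ih.1]
      refine ⟨k, m, hkK, (le_max_right _ _).trans hk3, ?_, hmP.2, hmin⟩
      by_contra hc
      push Not at hc
      obtain ⟨j, hj⟩ := Nat.exists_eq_add_of_le hmP.1
      have hjn : j ≤ n + 1 := by omega
      have h1 := (hg j).1
      rw [← hj] at h1
      have h2 : η * (A + 1 : ℝ) ^ j < δ := by
        have h3 : (A + 1 : ℝ) ^ j ≤ (A + 1) ^ (n + 1) := pow_le_pow_right₀ (by linarith) hjn
        have h4 : (A + 1 : ℝ) ^ (n + 1) ≤ (A + 2) ^ (n + 1) :=
          pow_le_pow_left₀ (by linarith) (by linarith) _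
        have h5 : (A + 2 : ℝ) ^ (n + 1) < (A + 2) ^ (n + 2) :=
          pow_lt_pow_right₀ (by linarith) (by omega)
        calc η * (A + 1 : ℝ) ^ j < η * (A + 2) ^ (n + 2) :=
              mul_lt_mul_of_pos_left (lt_of_le_of_lt (h3.trans h4) h5) hη
          _ = δ := by rw [hηd]; field_simp
      linarith [hmP.2]
    choose kk m hkK hkn hkm hδm hsm using hex
    set U : Ultrafilter ℕ := hyperfilter ℕ with hUd
    have hU : (U : Filter ℕ) ≤ atTop := Nat.hyperfilter_le_atTop
    have hge : ∀ i : ℕ, ∀ᶠ n in (U : Filter ℕ), i ≤ n := fun i => hU (eventually_ge_atTop i)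
    choose v hv using fun i : ℕ => ulim U (fun n => θ (m n - i))
    have hmt : ∀ i : ℕ, Tendsto (fun n => m n - i) (U : Filter ℕ) atTop := by
      intro i
      refine Tendsto.mono_left ?_ hU
      refine tendsto_atTop_mono (f := fun n => n - i) ?_ (tendsto_sub_atTop_nat i)
      intro n
      have := hkm n
      omega
    have hvc : ∀ i, MapClusterPt (v i) atTop θ := fun i => cluster_of_tendsto (hmt i) (hv i)
    have h3 : ∀ i, ∃ b : ℤ, 1 ≤ b ∧ ∀ᶠ n in (U : Filter ℕ), a (m n - i - 2) = b := by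
      intro i
      refine ulimZ U _ A ?_
      filter_upwards [hge i] with n hn
      refine ⟨ha1 _, hK0 _ ?_⟩
      have h1 := hkm n
      have h2 := hkK n
      omega
    choose b hb1 hb2 using h3
    have hbA : ∀ i, b i ≤ A := by
      intro i
      obtain ⟨n, hn, hn2⟩ := ((hb2 i).and (hge i)).exists
      rw [← hn]
      refine hK0 _ ?_
      have h1 := hkm n
      have h2 := hkK n
      omega
    have hidx : ∀ i n : ℕ, i ≤ n → θ (m n - i) = a (m n - i - 2) • θ (m n - (i + 1)) + θ (m n - (i + 2)) := by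
      intro i n hin
      have h1 := hkm n
      have h2 := hrec (m n - i - 2)
      have e1 : m n - i - 2 + 2 = m n - i := by omega
      have e2 : m n - i - 2 + 1 = m n - (i + 1) := by omega
      have e3 : m n - i - 2 = m n - (i + 2) := by omega
      rw [e1, e2] at h2
      rw [h2]
      congr 1
    have hvr : ∀ i, v i = b i • v (i + 1) + v (i + 2) := by
      intro i
      refine tendsto_nhds_unique (hv i) ?_
      have h4 : Tendsto (fun n => b i • θ (m n - (i + 1)) + θ (m n - (i + 2))) U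
          (𝓝 (b i • v (i + 1) + v (i + 2))) := ((hv (i + 1)).const_smul (b i)).add (hv (i + 2))
      refine h4.congr' ?_
      filter_upwards [hb2 i, hge i] with n hn hn2
      rw [← hn]
      exact (hidx i n hn2).symm
    have hbnd : ∀ i n : ℕ, i ≤ n → |r (m n - i)| ≤ (A + 1) * δ := by
      intro i n hin
      have h1 := hkm n
      rcases Nat.eq_zero_or_pos i with rfl | hi
      · rw [hr2, Nat.sub_zero]
        have h2 := hgrow (m n - 2) (by have := hkK n; omega)
        have e1 : m n - 2 + 2 = m n := by omega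
        have e2 : m n - 2 + 1 = m n - 1 := by omega
        rw [e1, e2] at h2
        have h3 := hsm n (m n - 1) (by omega) (by omega)
        have h4 := hsm n (m n - 2) (by omega) (by omega)
        have h5 : (A : ℝ) * ‖θ (m n - 1)‖ ≤ A * δ := mul_le_mul_of_nonneg_left h3.le hA0
        linarith
      · rw [hr2]
        have h3 := hsm n (m n - i) (by omega) (by omega)
        linarith
    have h5 : ∀ i, ∃ e, |e| ≤ (A + 1) * δ ∧ Tendsto (fun n => r (m n - i)) U (𝓝 e) := by
      intro i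
      refine ulimR U _ _ ?_
      filter_upwards [hge i] with n hn
      exact hbnd i n hn
    choose e he1 he2 using h5
    have hcoe : ∀ i, ((e i : ℝ) : UnitAddCircle) = v i := by
      intro i
      refine tendsto_nhds_unique ?_ (hv i)
      have h6 : Tendsto (fun n => ((r (m n - i) : ℝ) : UnitAddCircle)) U (𝓝 ((e i : ℝ) : UnitAddCircle)) :=
        ((AddCircle.continuous_mk' 1).tendsto (e i)).comp (he2 i)
      simpa only [hr1] using h6
    have hrece : ∀ i, e i = b i * e (i + 1) + e (i + 2) := by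
      intro i
      refine tendsto_nhds_unique (he2 i) ?_
      have h4 : Tendsto (fun n => (b i : ℝ) * r (m n - (i + 1)) + r (m n - (i + 2))) U
          (𝓝 (b i * e (i + 1) + e (i + 2))) := ((he2 (i + 1)).const_mul _).add (he2 (i + 2))
      refine h4.congr' ?_
      filter_upwards [hb2 i, hge (i + 2)] with n hn hn2
      symm
      have hbi := hb1 i
      refine exact_rec (A := A) (by omega) (hbA i) ?_ ?_
      · rw [hr1, hr1, hr1, ← hn]
        exact hidx i n (by omega)
      · have g1 := hbnd i n (by omega)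
        have g2 := hbnd (i + 1) n (by omega)
        have g3 := hbnd (i + 2) n (by omega)
        have g4 : (A : ℝ) * |r (m n - (i + 1))| ≤ A * ((A + 1) * δ) :=
          mul_le_mul_of_nonneg_left g2 hA0
        push_cast
        have g5 : (A + 2) * ((A + 1) * δ) ≤ 1 / 4 := by
          rw [← hδ1]
          apply mul_le_mul_of_nonneg_left _ (by linarith)
          nlinarith
        nlinarith
    have he0 : δ ≤ |e 0| := by
      have h6 : Tendsto (fun n => |r (m n - 0)|) U (𝓝 |e 0|) := (he2 0).abs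
      refine ge_of_tendsto' h6 ?_
      intro n
      rw [hr2, Nat.sub_zero]
      exact hδm n
    obtain ⟨D, hD, hD0, hD1⟩ := hcommon (v 0) (v 1) (hvc 0) (hvc 1)
    have hDv : ∀ i, D • v i = 0 ∧ D • v (i + 1) = 0 := by
      intro i
      induction i with
      | zero => exact ⟨hD0, hD1⟩
      | succ i ih =>
        refine ⟨ih.2, ?_⟩
        have h7 := hvr i
        have h8 : v (i + 2) = v i - b i • v (i + 1) := by rw [h7]; abel
        rw [show i + 1 + 1 = i + 2 from rfl, h8, smul_sub, smul_comm, ih.1, ih.2, smul_zero, sub_zero]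
    have h7 := discrete_zero (e := fun i => (-1) ^ i * e i) hD (b := b) ?_ ?_ hb1 ?_
    · simp only [pow_zero, one_mul] at h7
      rw [h7, abs_zero] at he0
      linarith
    · intro i
      obtain ⟨n, hn⟩ := int_of_torsion (hcoe i) (hDv i).1
      refine ⟨(-1) ^ i * n, ?_⟩
      push_cast
      rw [← hn]; ring
    · intro i
      rw [abs_mul, abs_pow, abs_neg, abs_one, one_pow, one_mul]
      have := he1 i
      linarith
    · intro i
      have h8 := hrece i
      have h9 : e (i + 2) = e i - b i * e (i + 1) := by linarith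
      rw [h9]; ring

/-- If the limit points of the sequence lie in finitely many cosets of the torsion group, then
there are only finitely many limit points. -/
theorem finite_of_cosets (hrec : ∀ k, θ (k + 2) = a k • θ (k + 1) + θ k) (ha1 : ∀ k, 1 ≤ a k)
    (haA : ∀ᶠ k in atTop, a k ≤ A) (F : Finset UnitAddCircle)
    (hF : ∀ x, MapClusterPt x atTop θ → ∃ y ∈ F, ∃ D : ℤ, D ≠ 0 ∧ D • (x - y) = 0) :
    {x | MapClusterPt x atTop θ}.Finite := by
  classical
  -- all limit points are torsion points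
  have htor : ∀ x, MapClusterPt x atTop θ → ∃ D : ℤ, D ≠ 0 ∧ D • x = 0 := by
    intro x hx
    obtain ⟨U, hU, hUx⟩ := mapClusterPt_iff_ultrafilter.1 hx
    obtain ⟨v, b, hv, hb1, hbA, hb2, hvr, hvc⟩ := fwd hrec ha1 haA U hU
    have hx0 : x = v 0 := tendsto_nhds_unique hUx (hv 0)
    let T : AddSubgroup UnitAddCircle := AddCommGroup.torsion UnitAddCircle
    have hT : ∀ g : UnitAddCircle, g ∈ T ↔ ∃ D : ℤ, D ≠ 0 ∧ D • g = 0 := by
      intro g
      constructor
      · intro hg
        have hg' : IsOfFinAddOrder g := hg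
        rw [isOfFinAddOrder_iff_zsmul_eq_zero] at hg'
        exact hg'
      · intro hg
        exact (isOfFinAddOrder_iff_zsmul_eq_zero.2 hg : IsOfFinAddOrder g)
    let π : UnitAddCircle →+ UnitAddCircle ⧸ T := QuotientAddGroup.mk' T
    have hz := zero_of_finite (G := UnitAddCircle ⧸ T) ?_ hb1 (z := fun i => π (v i)) ?_ ?_ 0
    · have h1 : v 0 ∈ T := (QuotientAddGroup.eq_zero_iff (v 0)).1 hz
      rw [hx0]
      exact (hT _).1 h1
    · intro n g hn hg
      obtain ⟨g, rfl⟩ := QuotientAddGroup.mk_surjective g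
      rw [← QuotientAddGroup.mk_zsmul, QuotientAddGroup.eq_zero_iff, hT] at hg
      obtain ⟨D, hD, hD2⟩ := hg
      rw [QuotientAddGroup.eq_zero_iff, hT]
      exact ⟨D * n, mul_ne_zero hD hn, by rw [mul_smul]; exact hD2⟩
    · intro i
      show π (v (i + 2)) = b i • π (v (i + 1)) + π (v i)
      rw [hvr i, map_add, map_zsmul]
    · apply (F.finite_toSet.image π).subset
      rintro _ ⟨i, rfl⟩
      obtain ⟨y, hy, hD⟩ := hF (v i) (hvc i)
      refine ⟨y, hy, ?_⟩
      have h1 : v i - y ∈ T := (hT _).2 hD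
      have h2 : π (v i - y) = 0 := (QuotientAddGroup.eq_zero_iff _).2 h1
      rw [map_sub, sub_eq_zero] at h2
      exact h2.symm
  -- a pair of consecutive limit points
  obtain ⟨v, b, hv, hb1, hbA, hb2, hvr, hvc⟩ := fwd hrec ha1 haA (hyperfilter ℕ)
    Nat.hyperfilter_le_atTop
  obtain ⟨D1, h1, h2⟩ := htor _ (hvc 0)
  obtain ⟨D2, h3, h4⟩ := htor _ (hvc 1)
  set D := D1 * D2 with hDd
  have hD : D ≠ 0 := mul_ne_zero h1 h3
  have hD0 : D • v 0 = 0 := by rw [hDd, mul_comm, mul_smul, h2, smul_zero]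
  have hD1 : D • v 1 = 0 := by rw [hDd, mul_smul, h4, smul_zero]
  have hcl : ∀ x, MapClusterPt x atTop θ → MapClusterPt (D • x) atTop (fun k => D • θ k) := by
    intro x hx
    obtain ⟨U, hU, hUx⟩ := mapClusterPt_iff_ultrafilter.1 hx
    exact mapClusterPt_iff_ultrafilter.2 ⟨U, hU, hUx.const_smul D⟩
  have hcl2 : ∀ x, MapClusterPt x atTop (fun k => D • θ k) → ∃ y, MapClusterPt y atTop θ ∧ x = D • y := by
    intro x hx
    obtain ⟨U, hU, hUx⟩ := mapClusterPt_iff_ultrafilter.1 hx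
    obtain ⟨y, hy⟩ := ulim U θ
    exact ⟨y, mapClusterPt_iff_ultrafilter.2 ⟨U, hU, hy⟩,
      tendsto_nhds_unique hUx (hy.const_smul D)⟩
  have hsmall := small_case (θ := fun k => D • θ k) (a := a) (A := A) ?_ ha1 haA ?_ ?_
  · have hfin : {x : UnitAddCircle | D.natAbs • x = 0}.Finite :=
      AddCircle.finite_torsion (p := (1 : ℝ)) (Int.natAbs_pos.2 hD)
    apply hfin.subset
    intro x hx
    have h5 := hsmall _ (hcl x hx)
    show D.natAbs • x = 0
    rcases Int.natAbs_eq D with h6 | h6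
    · rw [h6, natCast_zsmul] at h5
      exact h5
    · rw [h6, neg_smul, neg_eq_zero, natCast_zsmul] at h5
      exact h5
  · intro k
    show D • θ (k + 2) = a k • (D • θ (k + 1)) + D • θ k
    rw [hrec k, smul_add, smul_comm]
  · intro x hx
    obtain ⟨y, hy, rfl⟩ := hcl2 x hx
    obtain ⟨E, hE, hE2⟩ := htor y hy
    exact ⟨E, hE, by rw [smul_comm, hE2, smul_zero]⟩
  · intro η hη
    have g0 : Tendsto (fun k => ‖D • θ (k + 0)‖) (hyperfilter ℕ : Filter ℕ) (𝓝 ‖D • v 0‖) :=
      ((hv 0).const_smul D).norm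
    have g1 : Tendsto (fun k => ‖D • θ (k + 1)‖) (hyperfilter ℕ : Filter ℕ) (𝓝 ‖D • v 1‖) :=
      ((hv 1).const_smul D).norm
    rw [hD0, norm_zero] at g0
    rw [hD1, norm_zero] at g1
    have g2 := (g0.eventually (gt_mem_nhds hη)).and (g1.eventually (gt_mem_nhds hη))
    exact Filter.Frequently.filter_mono g2.frequently Nat.hyperfilter_le_atTop

/-- from the limit points one can pick a sequence with pairwise differences of infinite order -/
theorem pick_irr (hrec : ∀ k, θ (k + 2) = a k • θ (k + 1) + θ k) (ha1 : ∀ k, 1 ≤ a k)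
    (haA : ∀ᶠ k in atTop, a k ≤ A) (hinf : {x | MapClusterPt x atTop θ}.Infinite) :
    ∃ f : ℕ → UnitAddCircle, (∀ n, MapClusterPt (f n) atTop θ) ∧
      ∀ i j, i ≠ j → ∀ D : ℤ, D ≠ 0 → D • (f i - f j) ≠ 0 := by
  classical
  let r : UnitAddCircle → UnitAddCircle → Prop :=
    fun x y => ∀ D : ℤ, D ≠ 0 → D • (x - y) ≠ 0
  haveI : Std.Symm r := ⟨by
    intro x y hxy D hD hc
    apply hxy D hD
    rw [← neg_sub, smul_neg, hc, neg_zero]⟩
  have key : ∀ s : Finset UnitAddCircle, (∀ x ∈ s, MapClusterPt x atTop θ) →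
      ∃ y, MapClusterPt y atTop θ ∧ ∀ x ∈ s, r x y := by
    intro s _
    by_contra hcon
    push Not at hcon
    apply hinf
    apply finite_of_cosets hrec ha1 haA s
    intro x hx
    obtain ⟨y, hy, hyx⟩ := hcon x hx
    refine ⟨y, hy, ?_⟩
    simp only [r] at hyx
    push Not at hyx
    obtain ⟨D, hD, hD2⟩ := hyx
    refine ⟨D, hD, ?_⟩
    rw [← neg_sub, smul_neg, hD2, neg_zero]
  obtain ⟨f, hf, hr⟩ := exists_seq_of_forall_finset_exists' (fun x => MapClusterPt x atTop θ) r key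
  exact ⟨f, hf, fun i j hij => hr hij⟩

end

end Pool.Agent.TH847.LD
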