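import Pool.Agent.H332R2.Lit.Main
import Pool.Agent.TH847.LD.Cosets

/-! Dilations along integers that are good for irrational rotations. -/

set_option autoImplicit false

namespace Pool.Agent.TH847.LD

open Filter Topology Finset Pool.Agent.H332R2.Lit

/-- the Fourier transform of the weights -/
noncomputable def FT (μ : ℤ →₀ ℝ) (t : ℝ) : ℂ := ∑ m ∈ μ.support, (μ m : ℂ) * e (m * t)

lemma FT_zero (μ : ℤ →₀ ℝ) : FT μ 0 = ((∑ m ∈ μ.support, μ m : ℝ) : ℂ) := by
  unfold FT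
  rw [Complex.ofReal_sum]
  refine Finset.sum_congr rfl fun m _ => ?_
  rw [mul_zero, e_zero, mul_one]

lemma second_moment_gen (μ : ℤ →₀ ℝ) (n : ℕ) (x y : ℕ → ℝ) (h : ℕ) :
    ((∑ m ∈ μ.support, μ m * ‖∑ i : Fin n, e (h * (m * x i + y i))‖ ^ 2 : ℝ) : ℂ)
      = ∑ i : Fin n, ∑ j : Fin n, e (h * (y i - y j)) * FT μ (h * (x i - x j)) := by
  rw [Complex.ofReal_sum]
  have h1 : ∀ m ∈ μ.support, ((μ m * ‖∑ i : Fin n, e (h * (m * x i + y i))‖ ^ 2 : ℝ) : ℂ)
      = ∑ i : Fin n, ∑ j : Fin n, e (h * (y i - y j)) * ((μ m : ℂ) * e (m * (h * (x i - x j)))) := by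
    intro m _
    rw [Complex.ofReal_mul, normSq_sum, Finset.mul_sum]
    refine Finset.sum_congr rfl fun i _ => ?_
    rw [Finset.mul_sum]
    refine Finset.sum_congr rfl fun j _ => ?_
    have : (h : ℝ) * (m * x i + y i) - h * (m * x j + y j)
        = h * (y i - y j) + m * (h * (x i - x j)) := by ring
    rw [this, e_add]
    ring
  rw [Finset.sum_congr rfl h1, Finset.sum_comm]
  refine Finset.sum_congr rfl fun i _ => ?_
  rw [Finset.sum_comm]
  refine Finset.sum_congr rfl fun j _ => ?_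
  rw [← Finset.mul_sum]
  rfl

theorem glasner_gen (μ : ℕ → ℤ →₀ ℝ) (h0 : ∀ N m, 0 ≤ μ N m)
    (h1 : ∀ N, ∑ m ∈ (μ N).support, μ N m ≤ 1)
    (hμ : ∀ t : ℝ, Irrational t → Tendsto (fun N => FT (μ N) t) atTop (𝓝 0))
    (x y : ℕ → ℝ) (hx : ∀ i j, i ≠ j → ∀ h : ℕ, 1 ≤ h → Irrational (h * (x i - x j)))
    (ε : ℝ) (hε : 0 < ε) (B : ℤ → Prop) [DecidablePred B]
    (hB : ∀ m, B m → ∃ γ : ℝ, ∀ i, ε ≤ |(m * x i + y i - γ) - round (m * x i + y i - γ)|) :
    Tendsto (fun N => ∑ m ∈ (μ N).support with B m, μ N m) atTop (𝓝 0) := by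
  obtain ⟨R, hR⟩ := exists_nat_ge (1 / (4 * ε ^ 2))
  have hRpos : (0 : ℝ) < (R + 1) ^ 4 := by positivity
  have hnn : ∀ N, 0 ≤ ∑ m ∈ (μ N).support with B m, μ N m := fun N =>
    Finset.sum_nonneg fun m _ => h0 N m
  rw [tendsto_order]
  refine ⟨fun b hb => Eventually.of_forall fun N => hb.trans_le (hnn N), fun δ hδ => ?_⟩
  obtain ⟨n, hn⟩ := exists_nat_gt (2 * R * (R + 1) ^ 4 / δ + 1)
  have hn1 : (1 : ℝ) < n := lt_of_le_of_lt (by
    have : 0 ≤ 2 * R * (R + 1 : ℝ) ^ 4 / δ := by positivity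
    linarith) hn
  have hn0 : 0 < n := by
    have : (0 : ℝ) < n := by linarith
    exact_mod_cast this
  -- second moments
  have hsec : ∀ h ∈ Finset.Icc 1 R, ∀ᶠ N in atTop,
      ∑ m ∈ (μ N).support, μ N m * ‖∑ i : Fin n, e (h * (m * x i + y i))‖ ^ 2 ≤ n + 1 := by
    intro h hh
    have hh1 : 1 ≤ h := (Finset.mem_Icc.1 hh).1
    have ht : Tendsto (fun N => ∑ i : Fin n, ∑ j : Fin n,
        (if i = j then (0 : ℝ) else ‖FT (μ N) (h * (x i - x j))‖)) atTop (𝓝 0) := by
      have : Tendsto (fun N => ∑ i : Fin n, ∑ j : Fin n,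
        (if i = j then (0 : ℝ) else ‖FT (μ N) (h * (x i - x j))‖)) atTop
          (𝓝 (∑ i : Fin n, ∑ j : Fin n, (0 : ℝ))) := by
        refine tendsto_finsetSum _ fun i _ => tendsto_finsetSum _ fun j _ => ?_
        by_cases hij : i = j
        · simp [hij]
        · simp only [hij, if_false]
          have hij' : (i : ℕ) ≠ j := fun hc => hij (Fin.ext hc)
          have := (hμ _ (hx i j hij' h hh1)).norm
          simpa using this
      simpa using this
    filter_upwards [ht.eventually (gt_mem_nhds one_pos)] with N hN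
    have h2 := second_moment_gen (μ N) n x y h
    have h3 : ‖((∑ m ∈ (μ N).support, μ N m * ‖∑ i : Fin n, e (h * (m * x i + y i))‖ ^ 2 : ℝ) : ℂ)‖
        ≤ ∑ i : Fin n, ∑ j : Fin n, ((if i = j then (1 : ℝ) else 0) +
          (if i = j then (0 : ℝ) else ‖FT (μ N) (h * (x i - x j))‖)) := by
      rw [h2]
      refine (norm_sum_le _ _).trans (Finset.sum_le_sum fun i _ => ?_)
      refine (norm_sum_le _ _).trans (Finset.sum_le_sum fun j _ => ?_)
      rw [norm_mul, norm_e, one_mul]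
      by_cases hij : i = j
      · subst hij
        simp only [sub_self, mul_zero, if_true, add_zero]
        rw [FT_zero, Complex.norm_real, Real.norm_eq_abs,
          abs_of_nonneg (Finset.sum_nonneg fun m _ => h0 N m)]
        exact h1 N
      · simp [hij]
    rw [Complex.norm_real] at h3
    have h4 : ∑ i : Fin n, ∑ j : Fin n, ((if i = j then (1 : ℝ) else 0) +
          (if i = j then (0 : ℝ) else ‖FT (μ N) (h * (x i - x j))‖)) =
        n + ∑ i : Fin n, ∑ j : Fin n, (if i = j then (0 : ℝ) else ‖FT (μ N) (h * (x i - x j))‖) := by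
      simp_rw [Finset.sum_add_distrib]
      simp
    rw [h4] at h3
    have h5 := (le_abs_self _).trans h3
    linarith
  have hall := (Filter.eventually_all_finset (Finset.Icc 1 R)).2 hsec
  filter_upwards [hall] with N hN
  have hlow : ∀ m, B m → ((n : ℝ) / (R + 1) ^ 2) ^ 2 ≤
      ∑ h ∈ Finset.Icc 1 R, ‖∑ i : Fin n, e (h * (m * x i + y i))‖ ^ 2 := by
    intro m hm
    obtain ⟨γ, hγ⟩ := hB m hm
    obtain ⟨h, hh, hle⟩ := gap_large hn0 (fun i : Fin n => m * x i + y i) γ ε hε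
      (fun i => hγ i) R hR
    calc ((n : ℝ) / (R + 1) ^ 2) ^ 2 ≤ ‖∑ i : Fin n, e (h * (m * x i + y i))‖ ^ 2 :=
          pow_le_pow_left₀ (by positivity) hle 2
      _ ≤ _ := Finset.single_le_sum
          (f := fun h : ℕ => ‖∑ i : Fin n, e (h * (m * x i + y i))‖ ^ 2)
          (fun _ _ => by positivity) hh
  set S := ∑ m ∈ (μ N).support with B m, μ N m with hS
  have hsum : S * ((n : ℝ) / (R + 1) ^ 2) ^ 2 ≤ R * (n + 1) := by
    calc S * ((n : ℝ) / (R + 1) ^ 2) ^ 2
        = ∑ m ∈ (μ N).support with B m, μ N m * ((n : ℝ) / (R + 1) ^ 2) ^ 2 := by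
          rw [hS, Finset.sum_mul]
      _ ≤ ∑ m ∈ (μ N).support with B m, μ N m *
            ∑ h ∈ Finset.Icc 1 R, ‖∑ i : Fin n, e (h * (m * x i + y i))‖ ^ 2 := by
          refine Finset.sum_le_sum fun m hm => ?_
          exact mul_le_mul_of_nonneg_left (hlow m (Finset.mem_filter.1 hm).2) (h0 N m)
      _ ≤ ∑ m ∈ (μ N).support, μ N m *
            ∑ h ∈ Finset.Icc 1 R, ‖∑ i : Fin n, e (h * (m * x i + y i))‖ ^ 2 := by
          refine Finset.sum_le_sum_of_subset_of_nonneg (Finset.filter_subset _ _) fun m _ _ => ?_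
          exact mul_nonneg (h0 N m) (Finset.sum_nonneg fun _ _ => by positivity)
      _ = ∑ h ∈ Finset.Icc 1 R, ∑ m ∈ (μ N).support, μ N m *
            ‖∑ i : Fin n, e (h * (m * x i + y i))‖ ^ 2 := by
          simp_rw [Finset.mul_sum]
          exact Finset.sum_comm
      _ ≤ ∑ h ∈ Finset.Icc 1 R, ((n : ℝ) + 1) := Finset.sum_le_sum fun h hh => hN h hh
      _ = R * (n + 1) := by simp; ring
  have h6 : S * ((n : ℝ) / (R + 1) ^ 2) ^ 2 = S * n ^ 2 / (R + 1) ^ 4 := by field_simp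
  rw [h6, div_le_iff₀ hRpos] at hsum
  have h7 : 2 * R * (R + 1 : ℝ) ^ 4 < δ * n := by
    have : 2 * R * (R + 1 : ℝ) ^ 4 / δ < n := by linarith
    rw [div_lt_iff₀ hδ] at this; linarith
  have h8 : S * (n : ℝ) ^ 2 < δ * n ^ 2 := by
    calc S * (n : ℝ) ^ 2 ≤ R * (n + 1) * (R + 1) ^ 4 := hsum
      _ ≤ R * (2 * n) * (R + 1) ^ 4 := by gcongr; linarith
      _ = (2 * R * (R + 1) ^ 4) * n := by ring
      _ < (δ * n) * n := mul_lt_mul_of_pos_right h7 (by linarith)
      _ = _ := by ring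
  exact lt_of_mul_lt_mul_right h8 (by positivity)

/-- the integers `m` for which `(α, m β + β')` violates the inequality with some shift -/
def Bad (α β β' ε : ℝ) (m : ℤ) : Prop :=
  ¬ ∀ γ : ℝ, ∃ᶠ q : ℕ in atTop, (q : ℝ) * |q * α - round (q * α)|
    * |(q * (m * β + β') - γ) - round (q * (m * β + β') - γ)| < ε

theorem main_gen (μ : ℕ → ℤ →₀ ℝ) (h0 : ∀ N m, 0 ≤ μ N m)
    (h1 : ∀ N, ∑ m ∈ (μ N).support, μ N m ≤ 1)
    (hμ : ∀ t : ℝ, Irrational t → Tendsto (fun N => FT (μ N) t) atTop (𝓝 0))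
    {α β β' : ℝ} {c : ℝ} (hc : 0 < c)
    (hbad : ∀ᶠ q : ℕ in atTop, c ≤ (q : ℝ) * |q * α - round (q * α)|)
    (hno : ¬ ∃ U V W : ℤ, U ≠ 0 ∧ (U : ℝ) * β = V * α + W) {ε : ℝ} (hε : 0 < ε)
    (B : ℤ → Prop) [DecidablePred B] (hB : ∀ m, B m → Bad α β β' ε m) :
    Tendsto (fun N => ∑ m ∈ (μ N).support with B m, μ N m) atTop (𝓝 0) := by
  have hα := irrational_of_bad hc hbad
  obtain ⟨q, p, a, hq0, hq1, hqk, ha1, hqr, hpr, hsgn, hdet, ha⟩ := cf_data hα
  have hqtend : Tendsto (fun k : ℕ => (q k).toNat) atTop atTop := by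
    apply tendsto_atTop_mono (f := fun k : ℕ => k - 1)
    · intro k
      have h1 := hqk k
      omega
    · exact tendsto_sub_atTop_nat 1
  have hqn : ∀ k, (((q k).toNat : ℕ) : ℝ) = q k := by
    intro k
    have := Int.toNat_of_nonneg (hq0 k)
    exact_mod_cast this
  have hD1 : ∀ k, (q (k + 1) : ℝ) * |q k * α - p k| ≤ 1 := by
    intro k
    have h1 := hdet k
    have h3 : 0 ≤ (q k : ℝ) * |q (k + 1) * α - p (k + 1)| :=
      mul_nonneg (by exact_mod_cast hq0 k) (abs_nonneg _)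
    linarith
  -- bounded partial quotients
  obtain ⟨A, hA⟩ := exists_nat_ge (1 / c)
  have haA : ∀ᶠ k in atTop, a k ≤ A := by
    have h1 := hqtend.eventually hbad
    have h2 := (tendsto_add_atTop_nat 1).eventually h1
    filter_upwards [h2] with k hk
    rw [hqn] at hk
    have h3 : |(q (k + 1) : ℝ) * α - round ((q (k + 1) : ℝ) * α)| ≤ |(q (k + 1) : ℝ) * α - p (k + 1)| :=
      round_le' _ _
    have hqpos : (0 : ℝ) ≤ q (k + 1) := by exact_mod_cast hq0 (k + 1)
    have h4 : c ≤ (q (k + 1) : ℝ) * |(q (k + 1) : ℝ) * α - p (k + 1)| :=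
      hk.trans (mul_le_mul_of_nonneg_left h3 hqpos)
    have h5 := ha k
    have h6 := hD1 k
    have ha0 : (0 : ℝ) ≤ a k := by
      have := ha1 k
      exact_mod_cast (by omega : (0 : ℤ) ≤ a k)
    have h7 : (a k : ℝ) * c ≤ 1 := by
      calc (a k : ℝ) * c ≤ a k * ((q (k + 1) : ℝ) * |(q (k + 1) : ℝ) * α - p (k + 1)|) :=
            mul_le_mul_of_nonneg_left h4 ha0
        _ = q (k + 1) * (a k * |(q (k + 1) : ℝ) * α - p (k + 1)|) := by ring
        _ ≤ q (k + 1) * |q k * α - p k| := mul_le_mul_of_nonneg_left h5 hqpos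
        _ ≤ 1 := h6
    have h8 : (a k : ℝ) ≤ A := by
      refine le_trans ?_ hA
      rw [le_div_iff₀ hc]; exact h7
    exact_mod_cast h8
  set θ : ℕ → UnitAddCircle := fun k => ((q k * β : ℝ) : UnitAddCircle) with hθ
  have hinf : {x : UnitAddCircle | MapClusterPt x atTop θ}.Infinite := by
    intro hfin
    exact hno (relation_of_finite q p a hq0 hq1 hqk ha1 hqr hpr hsgn hdet A haA hfin)
  have hrec : ∀ k, θ (k + 2) = a k • θ (k + 1) + θ k := by
    intro k
    simp only [hθ]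
    rw [← AddCircle.coe_zsmul, ← AddCircle.coe_add, hqr, zsmul_eq_mul]
    congr 1
    push_cast; ring
  obtain ⟨f, hf, hff⟩ := pick_irr hrec ha1 haA hinf
  choose U hU hUx using fun i => mapClusterPt_iff_ultrafilter.1 (hf i)
  choose w hw using fun i => ulim (U i) (fun k => ((q k * β' : ℝ) : UnitAddCircle))
  choose x hx using fun i : ℕ => (QuotientAddGroup.mk_surjective (f i) :
    ∃ r : ℝ, (r : UnitAddCircle) = f i)
  choose y hy using fun i : ℕ => (QuotientAddGroup.mk_surjective (w i) :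
    ∃ r : ℝ, (r : UnitAddCircle) = w i)
  refine glasner_gen μ h0 h1 hμ x y ?_ ε hε _ ?_
  · rintro i j hij h hh ⟨r, hr⟩
    have hden : (r.den : ℤ) * (h : ℤ) ≠ 0 := by
      have := r.den_pos
      positivity
    apply hff i j hij _ hden
    rw [← hx i, ← hx j, ← AddCircle.coe_sub, ← AddCircle.coe_zsmul, AddCircle.coe_eq_zero_iff]
    refine ⟨r.num, ?_⟩
    rw [zsmul_eq_mul, zsmul_eq_mul, mul_one]
    push_cast
    have h3 : (r.den : ℝ) * (h * (x i - x j)) = r.num := by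
      rw [← hr]
      have h4 : (r : ℝ) * r.den = r.num := by exact_mod_cast Rat.mul_den_eq_num r
      linarith
    rw [← h3]; ring
  · intro m hm
    replace hm := hB m hm
    unfold Bad at hm
    push Not at hm
    obtain ⟨γ, hγ⟩ := hm
    refine ⟨γ, fun i => ?_⟩
    -- along the ultrafilter
    have hlim : Tendsto (fun k => ‖(((q k : ℝ) * (m * β + β') - γ : ℝ) : UnitAddCircle)‖) (U i)
        (𝓝 ‖((m * x i + y i - γ : ℝ) : UnitAddCircle)‖) := by
      have h3 : Tendsto (fun k => m • θ k + ((q k * β' : ℝ) : UnitAddCircle) - (γ : UnitAddCircle))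
          (U i) (𝓝 (m • f i + w i - (γ : UnitAddCircle))) :=
        (((hUx i).const_smul m).add (hw i)).sub tendsto_const_nhds
      have h4 := h3.norm
      have e1 : m • f i + w i - (γ : UnitAddCircle) = ((m * x i + y i - γ : ℝ) : UnitAddCircle) := by
        rw [AddCircle.coe_sub, AddCircle.coe_add, coe_zsmul', hx, hy]
      rw [e1] at h4
      refine h4.congr fun k => ?_
      congr 1
      rw [AddCircle.coe_sub]
      congr 1
      have : ((q k : ℝ) * (m * β + β')) = m * (q k * β) + q k * β' := by ring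
      rw [this, AddCircle.coe_add, coe_zsmul' m (q k * β)]
    rw [← UnitAddCircle.norm_eq]
    refine ge_of_tendsto hlim ?_
    have h5 : ∀ᶠ k in atTop, ε ≤ ‖(((q k : ℝ) * (m * β + β') - γ : ℝ) : UnitAddCircle)‖ := by
      have h6 := hqtend.eventually hγ
      filter_upwards [h6, eventually_ge_atTop 1] with k hk hk1
      rw [hqn] at hk
      obtain ⟨s, rfl⟩ := Nat.exists_eq_add_of_le hk1
      have hqpos : (0 : ℝ) ≤ q (1 + s) := by exact_mod_cast hq0 (1 + s)
      have hqq : (q (1 + s) : ℝ) ≤ q (1 + s + 1) := by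
        have h1 := hqr s
        have h2 := ha1 s
        have h3 := hq0 (s + 1)
        have h4 := hq0 s
        have : q (s + 1) ≤ q (s + 2) := by nlinarith
        have e1 : 1 + s = s + 1 := by omega
        have e2 : 1 + s + 1 = s + 2 := by omega
        rw [e1]
        exact_mod_cast this
      have h1 : (q (1 + s) : ℝ) * |(q (1 + s) : ℝ) * α - round ((q (1 + s) : ℝ) * α)| ≤ 1 := by
        calc _ ≤ (q (1 + s) : ℝ) * |(q (1 + s) : ℝ) * α - p (1 + s)| :=
              mul_le_mul_of_nonneg_left (round_le' _ _) hqpos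
          _ ≤ (q (1 + s + 1) : ℝ) * |(q (1 + s) : ℝ) * α - p (1 + s)| :=
              mul_le_mul_of_nonneg_right hqq (abs_nonneg _)
          _ ≤ 1 := hD1 _
      rw [UnitAddCircle.norm_eq]
      have h2 : (q (1 + s) : ℝ) * |(q (1 + s) : ℝ) * α - round ((q (1 + s) : ℝ) * α)|
          * |((q (1 + s) : ℝ) * (m * β + β') - γ) - round ((q (1 + s) : ℝ) * (m * β + β') - γ)|
          ≤ 1 * |((q (1 + s) : ℝ) * (m * β + β') - γ) - round ((q (1 + s) : ℝ) * (m * β + β') - γ)| :=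
        mul_le_mul_of_nonneg_right h1 (abs_nonneg _)
      linarith
    exact hU i h5

end Pool.Agent.TH847.LD
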