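import Pool.Agent.Helper602.MK.Main
import Pool.Agent.TH847.LD.Gen

/-! The primes are good for irrational rotations. -/

set_option autoImplicit false

namespace Pool.Agent.TH847.LD

open Filter Topology Finset Pool.Agent.H332R2.Lit

/-- uniform weights on the primes up to `N` -/
noncomputable def μP (N : ℕ) : ℤ →₀ ℝ :=
  Finsupp.indicator (((Icc 1 N).filter Nat.Prime).image (fun p : ℕ => (p : ℤ)))
    (fun _ _ => 1 / (((Icc 1 N).filter Nat.Prime).card : ℝ))

lemma μP_nonneg (N : ℕ) (m : ℤ) : 0 ≤ μP N m := by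
  unfold μP
  rw [Finsupp.indicator_apply]
  split_ifs <;> positivity

lemma sum_μP (N : ℕ) {M : Type*} [AddCommMonoid M] (f : ℤ → ℝ → M) (hf : ∀ m, f m 0 = 0) :
    ∑ m ∈ (μP N).support, f m (μP N m) =
      ∑ p ∈ (Icc 1 N).filter Nat.Prime, f p (1 / (((Icc 1 N).filter Nat.Prime).card : ℝ)) := by
  classical
  set P := ((Icc 1 N).filter Nat.Prime).image (fun p : ℕ => (p : ℤ)) with hP
  have h1 : (μP N).support ⊆ P := by
    unfold μP
    exact Finsupp.support_indicator_subset _ _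
  rw [Finset.sum_subset h1 (fun m _ hm => by
    rw [Finsupp.notMem_support_iff.1 hm]; exact hf m)]
  rw [hP, Finset.sum_image (fun a _ b _ h => by exact_mod_cast h)]
  refine Finset.sum_congr rfl fun p hp => ?_
  congr 1
  unfold μP
  rw [Finsupp.indicator_apply, dif_pos]
  exact Finset.mem_image_of_mem _ hp

lemma μP_sum_le (N : ℕ) : ∑ m ∈ (μP N).support, μP N m ≤ 1 := by
  have h := sum_μP N (M := ℝ) (fun _ c => c) (fun _ => rfl)
  rw [h, Finset.sum_const, nsmul_eq_mul]
  rcases Nat.eq_zero_or_pos ((Icc 1 N).filter Nat.Prime).card with h0 | h0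
  · rw [h0]; simp
  · have : (0 : ℝ) < ((Icc 1 N).filter Nat.Prime).card := by exact_mod_cast h0
    rw [mul_one_div, div_self this.ne']

/-- Chebyshev's lower bound -/
lemma cheb : ∀ᶠ N : ℕ in atTop, (N : ℝ) / (4 * Real.log N) ≤ ((Icc 1 N).filter Nat.Prime).card := by
  have h1 : Tendsto (fun N : ℕ => Real.log ((N : ℝ) + 1) / (N : ℝ)) atTop (𝓝 0) := by
    have h2 : Tendsto (fun x : ℝ => Real.log x / x) atTop (𝓝 0) := by
      simpa using Real.tendsto_pow_log_div_mul_add_atTop 1 0 1 one_ne_zero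
    have h3 : Tendsto (fun N : ℕ => Real.log ((N : ℝ) + 1) / ((N : ℝ) + 1)) atTop (𝓝 0) :=
      h2.comp ((tendsto_natCast_atTop_atTop).atTop_add tendsto_const_nhds)
    have h4 : Tendsto (fun N : ℕ => 2 * (Real.log ((N : ℝ) + 1) / ((N : ℝ) + 1))) atTop (𝓝 0) := by
      simpa using h3.const_mul 2
    refine squeeze_zero' (Eventually.of_forall fun N => ?_) ?_ h4
    · have : 0 ≤ Real.log ((N : ℝ) + 1) := Real.log_nonneg (by
        have : (0 : ℝ) ≤ N := Nat.cast_nonneg N
        linarith)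
      positivity
    · filter_upwards [eventually_ge_atTop 1] with N hN
      have hN' : (1 : ℝ) ≤ N := by exact_mod_cast hN
      have h5 : 0 ≤ Real.log ((N : ℝ) + 1) := Real.log_nonneg (by linarith)
      rw [mul_div_assoc', div_le_div_iff₀ (by linarith) (by linarith)]
      nlinarith
  have h2 : ∀ᶠ N : ℕ in atTop, Real.log ((N : ℝ) + 1) / (N : ℝ) < 1 / 4 :=
    h1.eventually (gt_mem_nhds (by norm_num))
  filter_upwards [h2, eventually_ge_atTop 2] with N hN hN2
  have hN' : (2 : ℝ) ≤ N := by exact_mod_cast hN2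
  have hlog : 0 < Real.log N := Real.log_pos (by linarith)
  have h3 := Chebyshev.psi_le_primeCounting_mul_log N
  have h4 := Chebyshev.psi_ge N
  have h5 : (N : ℝ) / 4 ≤ Nat.primeCounting N * Real.log N := by
    rw [div_lt_iff₀ (by linarith)] at hN
    have h6 : (0.6931471803 : ℝ) < Real.log 2 := Real.log_two_gt_d9
    nlinarith
  have h6 : (Nat.primeCounting N : ℝ) = ((Icc 1 N).filter Nat.Prime).card := by
    congr 1
    rw [Nat.primeCounting, Nat.primeCounting', Nat.count_eq_card_filter_range]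
    congr 1
    ext p
    simp only [Finset.mem_filter, Finset.mem_range, Finset.mem_Icc]
    constructor
    · rintro ⟨h1, h2⟩
      exact ⟨⟨h2.one_lt.le, by omega⟩, h2⟩
    · rintro ⟨h1, h2⟩
      exact ⟨by omega, h2⟩
  rw [← h6, div_le_iff₀ (by positivity)]
  linarith

lemma not_major {t : ℝ} (ht : Irrational t) (Q : ℝ) :
    ∀ᶠ N : ℕ in atTop, ¬ Pool.Agent.Helper602.MK.Major Q N t := by
  rcases lt_or_ge Q 1 with hQ | hQ
  · refine Eventually.of_forall fun N => ?_
    rintro ⟨q, hq1, hq2, _⟩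
    have : (1 : ℝ) ≤ q := by exact_mod_cast hq1
    linarith
  have hQ0 : 0 < Q := by linarith
  obtain ⟨M, hM⟩ := exists_nat_ge Q
  have hpos : ∀ q ∈ Icc 1 M, 0 < |(q : ℝ) * t - round ((q : ℝ) * t)| := by
    intro q hq
    rw [abs_pos, sub_ne_zero]
    have hq0 : q ≠ 0 := by have := (Finset.mem_Icc.1 hq).1; omega
    have h1 : Irrational ((q : ℝ) * t) := ht.natCast_mul hq0
    intro hc
    exact h1 ⟨(round ((q : ℝ) * t) : ℚ), by rw [Rat.cast_intCast]; exact hc.symm⟩
  obtain ⟨μ, hμ, hmin⟩ : ∃ μ : ℝ, 0 < μ ∧ ∀ q ∈ Icc 1 M, μ ≤ |(q : ℝ) * t - round ((q : ℝ) * t)| := by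
    by_cases hne : (Icc 1 M).Nonempty
    · obtain ⟨q, hq, hmin⟩ := (Icc 1 M).exists_min_image
        (fun q : ℕ => |(q : ℝ) * t - round ((q : ℝ) * t)|) hne
      exact ⟨_, hpos q hq, hmin⟩
    · exact ⟨1, one_pos, fun q hq => absurd ⟨q, hq⟩ hne⟩
  obtain ⟨N0, hN0⟩ := exists_nat_gt (Q * Q / μ)
  filter_upwards [eventually_ge_atTop N0, eventually_ge_atTop 1] with N hN hN1
  rintro ⟨q, hq1, hq2, a, ha⟩
  have hNr : Q * Q / μ < N := hN0.trans_le (by exact_mod_cast hN)
  rw [div_lt_iff₀ hμ] at hNr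
  have hNpos : (0 : ℝ) < N := by exact_mod_cast hN1
  have hqpos : (0 : ℝ) < q := by exact_mod_cast hq1
  have hqM : q ∈ Icc 1 M := by
    rw [Finset.mem_Icc]
    refine ⟨hq1, ?_⟩
    have : (q : ℝ) ≤ M := hq2.trans hM
    exact_mod_cast this
  have h1 := hmin q hqM
  have h2 : |(q : ℝ) * t - round ((q : ℝ) * t)| ≤ |(q : ℝ) * t - a| := round_le _ _
  have h3 : |(q : ℝ) * t - a| = q * |t - (a : ℝ) / q| := by
    rw [← abs_of_pos hqpos, ← abs_mul, abs_of_pos hqpos]
    congr 1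
    field_simp
  rw [h3] at h2
  have h4 : (q : ℝ) * |t - (a : ℝ) / q| ≤ Q * (Q / N) := mul_le_mul hq2 ha (abs_nonneg _) hQ0.le
  have h5 : μ ≤ Q * (Q / N) := h1.trans (h2.trans h4)
  have h6 : Q * (Q / N) < μ := by
    rw [mul_div_assoc', div_lt_iff₀ hNpos]
    linarith
  linarith

theorem primes_good (t : ℝ) (ht : Irrational t) : Tendsto (fun N => FT (μP N) t) atTop (𝓝 0) := by
  rw [tendsto_zero_iff_norm_tendsto_zero, tendsto_order]
  refine ⟨fun b hb => Eventually.of_forall fun N => hb.trans_le (norm_nonneg _), fun δ hδ => ?_⟩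
  obtain ⟨Q, hQ, N0, hN0, hmain⟩ := Pool.Agent.Helper602.MK.j4 (δ / 8) (by positivity)
  filter_upwards [cheb, not_major ht Q, eventually_ge_atTop N0] with N h1 h2 h3
  have hN2 : (2 : ℝ) ≤ N := by exact_mod_cast hN0.trans h3
  have hlog : 0 < Real.log N := Real.log_pos (by linarith)
  have h4 := hmain N h3 t h2
  set c : ℝ := (((Icc 1 N).filter Nat.Prime).card : ℝ) with hc
  have hcpos : 0 < c := lt_of_lt_of_le (by positivity) h1
  have h5 : FT (μP N) t = ((1 / c : ℝ) : ℂ) *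
      ∑ p ∈ (Icc 1 N).filter Nat.Prime, Pool.Agent.Helper602.MK.ee (t * p) := by
    unfold FT
    rw [sum_μP N (fun (m : ℤ) (x : ℝ) => (x : ℂ) * e (m * t)) (fun m => by simp), Finset.mul_sum]
    refine Finset.sum_congr rfl fun p _ => ?_
    rw [← hc]
    congr 1
    unfold e Pool.Agent.Helper602.MK.ee
    congr 1
    push_cast
    ring
  rw [h5, norm_mul, Complex.norm_real, Real.norm_eq_abs, abs_of_pos (by positivity)]
  calc 1 / c * _ ≤ 1 / c * (δ / 8 * N / Real.log N) := by gcongr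
    _ ≤ 1 / c * (δ / 8 * (4 * c)) := by
        gcongr
        rw [div_le_iff₀ (by positivity)] at h1
        rw [div_le_iff₀ hlog]
        nlinarith
    _ = δ / 2 := by field_simp; ring
    _ < δ := by linarith

end Pool.Agent.TH847.LD
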